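import Pool.Agent.J4H5.RZ.Stm

set_option autoImplicit false

/-!
# Project RZ, piece (R3): the mean square of the window integral (helper31)
-/

namespace Pool.Agent.J4H31.RZ

open Complex MeasureTheory Filter Topology Set
open Pool.Agent.J4H4.NG Pool.Agent.J4H5.RZ

noncomputable section

/-- the coefficients of `DD` -/
def dd (a lam : ℝ) (n : ℕ) : ℂ := ((n : ℂ) + 1) ^ (-(2 : ℂ)) *
  cexp (-(a : ℂ) * ((Real.log ((n : ℝ) + 1) : ℂ) - lam - I * (Real.pi / 4)) ^ 2)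

lemma cast_add (n : ℕ) : ((n : ℂ) + 1) = (((n : ℝ) + 1 : ℝ) : ℂ) := by push_cast; ring

lemma ne0 (n : ℕ) : ((n : ℂ) + 1) ≠ 0 := by
  rw [cast_add]
  exact_mod_cast (by positivity : ((n : ℝ) + 1) ≠ 0)

lemma osc_norm (n : ℕ) (v : ℝ) : ‖((n : ℂ) + 1) ^ (-(I * v))‖ = 1 := by
  rw [cast_add, Complex.norm_cpow_eq_rpow_re_of_pos (by positivity)]
  have : (-(I * (v : ℂ))).re = 0 := by simp
  rw [this, Real.rpow_zero]

lemma osc_add (n : ℕ) (v u : ℝ) : ((n : ℂ) + 1) ^ (-(I * ((v + u : ℝ) : ℂ))) =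
    ((n : ℂ) + 1) ^ (-(I * v)) * cexp (I * (u * (-Real.log ((n : ℝ) + 1)) : ℝ)) := by
  rw [Complex.cpow_def_of_ne_zero (ne0 n), Complex.cpow_def_of_ne_zero (ne0 n), ← Complex.exp_add]
  congr 1
  rw [cast_add, ← Complex.ofReal_log (by positivity)]
  push_cast
  ring

lemma osc_cont (n : ℕ) : Continuous fun v : ℝ => ((n : ℂ) + 1) ^ (-(I * v)) := by
  have : (fun v : ℝ => ((n : ℂ) + 1) ^ (-(I * v))) = fun v : ℝ => cexp (Complex.log ((n : ℂ) + 1) * -(I * v)) := by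
    funext v
    rw [Complex.cpow_def_of_ne_zero (ne0 n)]
  rw [this]
  fun_prop

lemma dd_norm (a lam : ℝ) (n : ℕ) : ‖dd a lam n‖ = Real.exp (a * Real.pi ^ 2 / 16) * amp a lam (n + 1) := by
  unfold dd amp
  rw [norm_mul, Complex.norm_exp, cast_add, Complex.norm_cpow_eq_rpow_re_of_pos (by positivity)]
  have h1 : (-(2 : ℂ)).re = -2 := by simp
  have h2 : (-(a : ℂ) * ((Real.log ((n : ℝ) + 1) : ℂ) - lam - I * (Real.pi / 4)) ^ 2).re =
      a * Real.pi ^ 2 / 16 + -a * (Real.log ((n : ℝ) + 1) - lam) ^ 2 := by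
    have : -(a : ℂ) * ((Real.log ((n : ℝ) + 1) : ℂ) - lam - I * (Real.pi / 4)) ^ 2 =
        ((a * Real.pi ^ 2 / 16 + -a * (Real.log ((n : ℝ) + 1) - lam) ^ 2 : ℝ) : ℂ) +
          ((a * (Real.log ((n : ℝ) + 1) - lam) * Real.pi / 2 : ℝ) : ℂ) * I := by
      push_cast
      ring_nf
      rw [Complex.I_sq]
      ring
    rw [this, Complex.add_re, Complex.ofReal_re, Complex.re_ofReal_mul, Complex.I_re, mul_zero, add_zero]
  rw [h1, h2, Real.exp_add]
  have h3 : ((n : ℝ) + 1) ^ (-2 : ℝ) = ((((n + 1 : ℕ) : ℝ)) ^ 2)⁻¹ := by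
    rw [Real.rpow_neg (by positivity)]
    congr 1
    push_cast
    norm_cast
  rw [h3]
  push_cast
  ring

lemma DD_eq (a lam v : ℝ) : DD a lam v = DS (dd a lam) v := by
  unfold DD DS dd
  congr 1
  funext n
  rw [sub_eq_add_neg, Complex.cpow_add _ _ (ne0 n)]
  ring

lemma KK_le (h x : ℝ) (hh : 0 ≤ h) : ‖KK h x‖ ≤ h := by
  unfold KK
  have := intervalIntegral.norm_integral_le_of_norm_le_const (a := 0) (b := h) (C := 1)
    (f := fun u : ℝ => cexp (I * (u * x : ℝ))) (by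
      intro u _
      rw [mul_comm, Complex.norm_exp_ofReal_mul_I])
  simpa [abs_of_nonneg hh] using this

lemma DS_cont (c : ℕ → ℂ) (hc : Summable fun n => ‖c n‖) : Continuous (DS c) := by
  unfold DS
  refine continuous_tsum (fun n => continuous_const.mul (osc_cont n)) hc ?_
  intro n v
  rw [norm_mul, osc_norm, mul_one]

lemma dd_sum (a lam : ℝ) (hs : Summable fun n : ℕ => amp a lam (n + 1)) : Summable fun n => ‖dd a lam n‖ := by
  simp only [dd_norm]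
  exact hs.mul_left _

/-- the window of the Dirichlet series -/
lemma window (a lam L v h : ℝ) (hh : 0 ≤ h) (hs : Summable fun n : ℕ => amp a lam (n + 1)) :
    ∫ u in (0 : ℝ)..h, cexp (I * (u * L : ℝ)) * DD a lam (v + u) =
      DS (fun n => dd a lam n * KK h (L - Real.log ((n : ℝ) + 1))) v := by
  have hsum := dd_sum a lam hs
  set F : ℕ → ℝ → ℂ := fun n u => dd a lam n * ((n : ℂ) + 1) ^ (-(I * v)) *
    cexp (I * (u * (L - Real.log ((n : ℝ) + 1)) : ℝ)) with hF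
  have hFc : ∀ n, Continuous (F n) := by
    intro n
    rw [hF]
    fun_prop
  have hFn : ∀ n u, ‖F n u‖ = ‖dd a lam n‖ := by
    intro n u
    rw [hF]
    simp only
    rw [norm_mul, norm_mul, osc_norm, mul_one, mul_comm I, Complex.norm_exp_ofReal_mul_I, mul_one]
  have hpt : ∀ u : ℝ, cexp (I * (u * L : ℝ)) * DD a lam (v + u) = ∑' n, F n u := by
    intro u
    rw [DD_eq, DS, ← tsum_mul_left]
    congr 1
    funext n
    rw [osc_add]
    rw [hF]
    simp only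
    have : cexp (I * (u * (L - Real.log ((n : ℝ) + 1)) : ℝ)) = cexp (I * (u * L : ℝ)) *
        cexp (I * (u * (-Real.log ((n : ℝ) + 1)) : ℝ)) := by
      rw [← Complex.exp_add]
      congr 1
      push_cast
      ring
    rw [this]
    ring
  have hint : ∀ n, Integrable (F n) (volume.restrict (Set.Ioc 0 h)) := by
    intro n
    exact ((hFc n).continuousOn.integrableOn_Icc (a := 0) (b := h)).mono_set Set.Ioc_subset_Icc_self
  have hno : ∀ n, ∫ u in Set.Ioc 0 h, ‖F n u‖ = h * ‖dd a lam n‖ := by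
    intro n
    simp only [hFn]
    rw [MeasureTheory.setIntegral_const]
    simp [Measure.real, ENNReal.toReal_ofReal hh]
  have hkey := MeasureTheory.hasSum_integral_of_summable_integral_norm (μ := volume.restrict (Set.Ioc 0 h)) hint (by
    simp only [hno]
    exact hsum.mul_left _)
  rw [intervalIntegral.integral_of_le hh]
  simp only [hpt]
  rw [← hkey.tsum_eq]
  unfold DS
  congr 1
  funext n
  rw [← intervalIntegral.integral_of_le hh]
  rw [hF]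
  simp only
  rw [intervalIntegral.integral_const_mul]
  unfold KK
  ring

/-- local mean square of the window of the Dirichlet series -/
lemma mainW (hSUM : S_SUM) (hMSQ : S_MSQ) (a : ℝ) (ha : 0 < a) : ∃ C : ℝ, 0 < C ∧ ∀ L lam h V H : ℝ, 1 ≤ lam →
    |L - lam| ≤ 3 / (4 * a) → 1 ≤ h → h ≤ Real.exp lam → 0 ≤ H →
    ∫ v in V..(V + H), ‖DS (fun n => dd a lam n * KK h (L - Real.log ((n : ℝ) + 1))) v‖ ^ 2 ≤
      C * (H * h * Real.exp (-(3 * lam)) + h ^ 2 * (1 + lam) * Real.exp (-(2 * lam))) := by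
  obtain ⟨_, C2, _, hC2, hS⟩ := hSUM a (3 / (4 * a)) ha (by positivity)
  obtain ⟨C1, hC1, hM⟩ := hMSQ a ha
  set E : ℝ := Real.exp (a * Real.pi ^ 2 / 16) with hE
  have hE0 : 0 < E := Real.exp_pos _
  refine ⟨E ^ 2 * (C1 + C2), by positivity, ?_⟩
  intro L lam h V H hlam hL hh1 hhe hH
  obtain ⟨hs, -, -, -, -, -, hlast⟩ := hS lam hlam
  have hh0 : 0 < h := by linarith
  set M : ℝ := h * E with hMdef
  have hM0 : 0 < M := by positivity
  set c : ℕ → ℂ := fun n => dd a lam n * KK h (L - Real.log ((n : ℝ) + 1)) with hc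
  set c' : ℕ → ℂ := fun n => c n / (M : ℂ) with hc'
  have hMC : (M : ℂ) ≠ 0 := by exact_mod_cast hM0.ne'
  have hmaj : Maj a lam c' := by
    intro n
    rw [hc', hc]
    simp only
    rw [norm_div, norm_mul, dd_norm, Complex.norm_real, Real.norm_of_nonneg hM0.le, div_le_iff₀ hM0]
    have h1 := KK_le h (L - Real.log ((n : ℝ) + 1)) hh0.le
    have h2 : 0 ≤ amp a lam (n + 1) := by unfold amp; positivity
    calc Real.exp (a * Real.pi ^ 2 / 16) * amp a lam (n + 1) * ‖KK h (L - Real.log ((n : ℝ) + 1))‖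
        ≤ Real.exp (a * Real.pi ^ 2 / 16) * amp a lam (n + 1) * h :=
          mul_le_mul_of_nonneg_left h1 (by positivity)
      _ = amp a lam (n + 1) * M := by rw [hMdef, hE]; ring
  have hDS : ∀ v, DS c v = (M : ℂ) * DS c' v := by
    intro v
    unfold DS
    rw [← tsum_mul_left]
    congr 1
    funext n
    rw [hc']
    simp only
    field_simp
  have hint : ∫ v in V..(V + H), ‖DS c v‖ ^ 2 = M ^ 2 * ∫ v in V..(V + H), ‖DS c' v‖ ^ 2 := by
    rw [← intervalIntegral.integral_const_mul]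
    congr 1
    funext v
    rw [hDS, norm_mul, mul_pow, Complex.norm_real, Real.norm_of_nonneg hM0.le]
  have hsum : M ^ 2 * ∑' n, ‖c' n‖ ^ 2 = E ^ 2 * ∑' n : ℕ, (amp a lam (n + 1)) ^ 2 * ‖KK h (L - Real.log ((n : ℝ) + 1))‖ ^ 2 := by
    rw [← tsum_mul_left, ← tsum_mul_left]
    congr 1
    funext n
    rw [hc', hc]
    simp only
    rw [norm_div, norm_mul, dd_norm, Complex.norm_real, Real.norm_of_nonneg hM0.le]
    rw [← hE]
    field_simp
  have h3 := hlast L h hL hh1 hhe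
  have h4 := (abs_le.mp (hM lam hlam c' hmaj V H hH)).2
  rw [hint]
  have h5 : ∫ v in V..(V + H), ‖DS c' v‖ ^ 2 ≤ H * ∑' n, ‖c' n‖ ^ 2 + C1 * (1 + lam) * Real.exp (-(2 * lam)) := by
    linarith
  calc M ^ 2 * ∫ v in V..(V + H), ‖DS c' v‖ ^ 2
      ≤ M ^ 2 * (H * ∑' n, ‖c' n‖ ^ 2 + C1 * (1 + lam) * Real.exp (-(2 * lam))) :=
        mul_le_mul_of_nonneg_left h5 (by positivity)
    _ = H * (M ^ 2 * ∑' n, ‖c' n‖ ^ 2) + M ^ 2 * (C1 * (1 + lam) * Real.exp (-(2 * lam))) := by ring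
    _ ≤ H * (E ^ 2 * (C2 * h * Real.exp (-(3 * lam)))) + M ^ 2 * (C1 * (1 + lam) * Real.exp (-(2 * lam))) := by
        rw [hsum]
        gcongr
    _ ≤ E ^ 2 * (C1 + C2) * (H * h * Real.exp (-(3 * lam)) + h ^ 2 * (1 + lam) * Real.exp (-(2 * lam))) := by
        rw [hMdef]
        have e1 : 0 ≤ C1 * (H * h * Real.exp (-(3 * lam))) := by positivity
        have e2 : 0 ≤ C2 * (h ^ 2 * (1 + lam) * Real.exp (-(2 * lam))) := by positivity
        have e3 : 0 ≤ E ^ 2 := by positivity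
        nlinarith [mul_nonneg e3 e1, mul_nonneg e3 e2]

/-! ## Elementary bounds -/

lemma two_pi_le : 2 * Real.pi ≤ 9 := by linarith [Real.pi_lt_four]

lemma exp_LL (x : ℝ) (hx : 0 < x) : Real.exp (-LL x) = (x / (2 * Real.pi)) ^ (-(1 / 2) : ℝ) := by
  unfold LL
  rw [Real.rpow_def_of_pos (by positivity)]
  congr 1
  ring

lemma exp_LL_le (T x : ℝ) (hT : 0 < T) (hx : T ≤ x) : Real.exp (-LL x) ≤ 3 * T ^ (-(1 / 2) : ℝ) := by
  rw [exp_LL x (by linarith)]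
  have h1 : T / 9 ≤ x / (2 * Real.pi) := by
    have e1 := two_pi_le
    have e2 := Real.pi_pos
    have e3 : 0 ≤ x := by linarith
    gcongr
  have h2 := Real.rpow_le_rpow_of_nonpos (by positivity : 0 < T / 9) h1 (by norm_num : (-(1 / 2) : ℝ) ≤ 0)
  refine h2.trans_eq ?_
  rw [Real.div_rpow hT.le (by norm_num)]
  have h3 : (9 : ℝ) ^ (-(1 / 2) : ℝ) = 1 / 3 := by
    rw [Real.rpow_neg (by norm_num), ← Real.sqrt_eq_rpow]
    rw [show (9 : ℝ) = 3 ^ 2 by norm_num, Real.sqrt_sq (by norm_num)]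
    norm_num
  rw [h3]
  ring

lemma LL_diff (V x : ℝ) (hV : 0 < V) (hx : V ≤ x) : 0 ≤ LL x - LL V ∧ LL x - LL V ≤ (x - V) / (2 * V) := by
  unfold LL
  have hp := Real.pi_pos
  have hx0 : 0 < x := by linarith
  have h1 : Real.log (x / (2 * Real.pi)) - Real.log (V / (2 * Real.pi)) = Real.log (x / V) := by
    rw [← Real.log_div (by positivity) (by positivity)]
    congr 1
    field_simp
  have h2 : Real.log (x / V) ≤ x / V - 1 := Real.log_le_sub_one_of_pos (by positivity)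
  have h3 : 0 ≤ Real.log (x / V) := Real.log_nonneg (by rw [le_div_iff₀ hV]; linarith)
  have h4 : (x - V) / (2 * V) = (x / V - 1) / 2 := by field_simp
  constructor
  · linarith
  · rw [h4]; linarith

lemma unit_dist (z : ℂ) (hz : z ≠ 0) : ‖z / (‖z‖ : ℂ) - 1‖ ≤ 2 * ‖z - 1‖ := by
  have hn : (0 : ℝ) < ‖z‖ := norm_pos_iff.mpr hz
  have hnC : ((‖z‖ : ℝ) : ℂ) ≠ 0 := by exact_mod_cast hn.ne'
  have h1 : ‖z / (‖z‖ : ℂ) - z‖ = |1 - ‖z‖| := by
    have : z / (‖z‖ : ℂ) - z = z / (‖z‖ : ℂ) * ((1 - ‖z‖ : ℝ) : ℂ) := by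
      push_cast
      field_simp
    rw [this, norm_mul, norm_div, Complex.norm_real, norm_norm, div_self hn.ne', one_mul, Complex.norm_real,
      Real.norm_eq_abs]
  have h2 : |1 - ‖z‖| ≤ ‖z - 1‖ := by
    rw [abs_sub_comm]
    have := abs_norm_sub_norm_le z 1
    simpa using this
  calc ‖z / (‖z‖ : ℂ) - 1‖ = ‖(z / (‖z‖ : ℂ) - z) + (z - 1)‖ := by ring_nf
    _ ≤ ‖z / (‖z‖ : ℂ) - z‖ + ‖z - 1‖ := norm_add_le _ _
    _ ≤ 2 * ‖z - 1‖ := by rw [h1]; linarith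

lemma rot_dist (x y : ℝ) : ‖cexp (I * (x : ℝ)) - cexp (I * (y : ℝ))‖ ≤ |x - y| := by
  have h1 : cexp (I * (x : ℝ)) - cexp (I * (y : ℝ)) = cexp (I * (y : ℝ)) * (cexp (I * ((x - y : ℝ) : ℂ)) - 1) := by
    rw [mul_sub, ← Complex.exp_add]
    push_cast
    ring_nf
  rw [h1, norm_mul, mul_comm I, Complex.norm_exp_ofReal_mul_I, one_mul]
  have := Real.norm_exp_I_mul_ofReal_sub_one_le (x := x - y)
  simpa using this

/-- the phase -/
def PP (v : ℝ) : ℂ := gam (2 + I * v) / ((‖gam (2 + I * v)‖ : ℝ) : ℂ)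

lemma PP_norm (v : ℝ) (hv : gam (2 + I * v) ≠ 0) : ‖PP v‖ = 1 := by
  unfold PP
  rw [norm_div, Complex.norm_real, norm_norm, div_self (norm_pos_iff.mpr hv).ne']

lemma PP_shift (v u : ℝ) (hv : gam (2 + I * v) ≠ 0) (hv' : gam (2 + I * ((v + u : ℝ) : ℂ)) ≠ 0) :
    ‖PP (v + u) - PP v * cexp (I * ((u * LL v : ℝ) : ℂ))‖ ≤
      2 * ‖gam (2 + I * ((v + u : ℝ) : ℂ)) / gam (2 + I * v) * cexp (-(I * u * ell v)) - 1‖ := by
  set g := gam (2 + I * v) with hg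
  set g' := gam (2 + I * ((v + u : ℝ) : ℂ)) with hg'
  set z := g' / g * cexp (-(I * u * ell v)) with hz
  have hz0 : z ≠ 0 := mul_ne_zero (div_ne_zero hv' hv) (Complex.exp_ne_zero _)
  have hzn : (0 : ℝ) < ‖z‖ := norm_pos_iff.mpr hz0
  have hgn : (0 : ℝ) < ‖g‖ := norm_pos_iff.mpr hv
  have hgn' : (0 : ℝ) < ‖g'‖ := norm_pos_iff.mpr hv'
  have hell : I * u * ell v = I * ((u * LL v : ℝ) : ℂ) + ((-(u * Real.pi / 4) : ℝ) : ℂ) := by
    unfold ell LL
    push_cast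
    ring_nf
    rw [Complex.I_sq]
    ring
  have hexp : cexp (I * u * ell v) = cexp (I * ((u * LL v : ℝ) : ℂ)) * ((Real.exp (-(u * Real.pi / 4)) : ℝ) : ℂ) := by
    rw [hell, Complex.exp_add, Complex.ofReal_exp]
  have hg1 : g' = g * z * cexp (I * u * ell v) := by
    rw [hz]
    have : cexp (-(I * u * ell v)) * cexp (I * u * ell v) = 1 := by
      rw [← Complex.exp_add]; simp
    calc g' = g' / g * g * 1 := by field_simp
      _ = g' / g * g * (cexp (-(I * u * ell v)) * cexp (I * u * ell v)) := by rw [this]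
      _ = _ := by ring
  have hnn : ‖g'‖ = ‖g‖ * ‖z‖ * Real.exp (-(u * Real.pi / 4)) := by
    have q1 : ‖cexp (I * u * ell v)‖ = Real.exp (-(u * Real.pi / 4)) := by
      rw [hexp, norm_mul, mul_comm I, Complex.norm_exp_ofReal_mul_I, one_mul, Complex.norm_real,
        Real.norm_of_nonneg (Real.exp_pos _).le]
    calc ‖g'‖ = ‖g * z * cexp (I * u * ell v)‖ := congrArg norm hg1
      _ = _ := by rw [norm_mul, norm_mul, q1]
  have hPP : PP (v + u) = PP v * cexp (I * ((u * LL v : ℝ) : ℂ)) * (z / (‖z‖ : ℂ)) := by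
    unfold PP
    rw [← hg, ← hg', hnn]
    have e1 : ((‖g‖ : ℝ) : ℂ) ≠ 0 := by exact_mod_cast hgn.ne'
    have e2 : ((‖z‖ : ℝ) : ℂ) ≠ 0 := by exact_mod_cast hzn.ne'
    have e3 : ((Real.exp (-(u * Real.pi / 4)) : ℝ) : ℂ) ≠ 0 := by exact_mod_cast (Real.exp_pos _).ne'
    have hg2 : g' = g * z * (cexp (I * ((u * LL v : ℝ) : ℂ)) * ((Real.exp (-(u * Real.pi / 4)) : ℝ) : ℂ)) := by
      rw [← hexp]; exact hg1
    rw [hg2]
    push_cast only [Complex.ofReal_mul] at *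
    field_simp
  rw [hPP]
  have : PP v * cexp (I * ((u * LL v : ℝ) : ℂ)) * (z / (‖z‖ : ℂ)) - PP v * cexp (I * ((u * LL v : ℝ) : ℂ)) =
      PP v * cexp (I * ((u * LL v : ℝ) : ℂ)) * (z / (‖z‖ : ℂ) - 1) := by ring
  rw [this, norm_mul, norm_mul, PP_norm v hv, mul_comm I, Complex.norm_exp_ofReal_mul_I, one_mul, one_mul]
  exact unit_dist z hz0

/-! ## Comparison on a short interval -/

lemma DD_cont (a lam : ℝ) (hs : Summable fun n : ℕ => amp a lam (n + 1)) : Continuous (DD a lam) := by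
  have : DD a lam = DS (dd a lam) := by funext v; exact DD_eq a lam v
  rw [this]
  exact DS_cont _ (dd_sum a lam hs)

lemma one_le_LL (x : ℝ) (hx : 2 * Real.pi * Real.exp 2 ≤ x) : 1 ≤ LL x := by
  unfold LL
  have hp := Real.pi_pos
  have h1 : Real.exp 2 ≤ x / (2 * Real.pi) := by
    rw [le_div_iff₀ (by positivity)]
    linarith
  have h2 : 2 ≤ Real.log (x / (2 * Real.pi)) := by
    rw [Real.le_log_iff_exp_le (lt_of_lt_of_le (Real.exp_pos _) h1)]
    exact h1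
  linarith

lemma cmp (hDIF : S_DIF) (hSTI : S_STI) (hRE : S_RE) (a : ℝ) (ha : 0 < a) : ∃ C VA : ℝ, 0 < C ∧ 81 ≤ VA ∧
    2 * Real.pi * Real.exp 2 ≤ VA ∧ ContinuousOn (RR a) (Set.Ici VA) ∧ (∀ v : ℝ, VA ≤ v → gam (2 + I * v) ≠ 0) ∧
    ∀ T V v u h : ℝ, VA ≤ T → T ≤ V → V ≤ v → v ≤ V + T ^ (2 / 3 : ℝ) → 0 ≤ u → u ≤ h → 1 ≤ h → h ≤ T ^ (1 / 50 : ℝ) →
    ‖((RR a (v + u) : ℝ) : ℂ) - PP v * ((Real.exp (9 / (16 * a)) : ℝ) : ℂ) *
      (cexp (I * ((u * LL V : ℝ) : ℂ)) * DD a (lamv a V) (v + u))‖ ≤ C * h ^ 2 * T ^ (-(5 / 6) : ℝ) := by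
  obtain ⟨CD, hCD, hD⟩ := hDIF a ha
  obtain ⟨CS, VS, hCS, hVS, hS⟩ := hSTI
  obtain ⟨CR, VR, hCR, hVR, hcont, -, hR⟩ := hRE a ha
  set E9 : ℝ := Real.exp (9 / (16 * a)) with hE9
  have hE90 : 0 < E9 := Real.exp_pos _
  refine ⟨CR + E9 * CD * 3 * (4 * CS + 2), max (max VS VR) (max 81 (2 * Real.pi * Real.exp 2)), by positivity,
    (le_max_left _ _).trans (le_max_right _ _), (le_max_right _ _).trans (le_max_right _ _), ?_, ?_, ?_⟩
  · exact hcont.mono (Set.Ici_subset_Ici.mpr ((le_max_right _ _).trans (le_max_left _ _)))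
  · intro v hv
    exact (hS v (((le_max_left _ _).trans (le_max_left _ _)).trans hv)).1
  intro T V v u h hT hTV hVv hvV hu huh hh1 hhT
  have hTS : VS ≤ T := ((le_max_left _ _).trans (le_max_left _ _)).trans hT
  have hTR : VR ≤ T := ((le_max_right _ _).trans (le_max_left _ _)).trans hT
  have hT81 : 81 ≤ T := ((le_max_left _ _).trans (le_max_right _ _)).trans hT
  have hTpi : 2 * Real.pi * Real.exp 2 ≤ T := ((le_max_right _ _).trans (le_max_right _ _)).trans hT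
  have hT0 : 0 < T := by linarith
  have hT1 : 1 ≤ T := by linarith
  have hV0 : 0 < V := by linarith
  have hv0 : 0 < v := by linarith
  have hh0 : 0 ≤ h := by linarith
  set x : ℝ := v + u with hx
  have hTx : T ≤ x := by linarith
  have hx0 : 0 < x := by linarith
  -- powers
  have p1 : T ^ (-(5 / 6) : ℝ) = T ^ (-(1 / 2) : ℝ) * T ^ (-(1 / 3) : ℝ) := by
    rw [← Real.rpow_add hT0]; norm_num
  have p2 : T ^ (2 / 3 : ℝ) = T * T ^ (-(1 / 3) : ℝ) := by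
    nth_rewrite 2 [← Real.rpow_one T]
    rw [← Real.rpow_add hT0]; norm_num
  have p3 : T ^ (1 / 50 : ℝ) ≤ T ^ (2 / 3 : ℝ) := Real.rpow_le_rpow_of_exponent_le hT1 (by norm_num)
  have p4 : T ^ (-(1 / 3) : ℝ) ≤ 1 := Real.rpow_le_one_of_one_le_of_nonpos hT1 (by norm_num)
  have p5 : T⁻¹ ≤ T ^ (-(5 / 6) : ℝ) := by
    rw [← Real.rpow_neg_one]
    exact Real.rpow_le_rpow_of_exponent_le hT1 (by norm_num)
  have p6 : T⁻¹ ≤ T ^ (-(1 / 3) : ℝ) := by
    rw [← Real.rpow_neg_one]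
    exact Real.rpow_le_rpow_of_exponent_le hT1 (by norm_num)
  have p7 : 0 < T ^ (-(1 / 3) : ℝ) := Real.rpow_pos_of_pos hT0 _
  have p8 : 0 < T ^ (-(1 / 2) : ℝ) := Real.rpow_pos_of_pos hT0 _
  have p9 : h ^ 2 ≤ T := by
    have e1 : h ^ 2 ≤ (T ^ (1 / 50 : ℝ)) ^ 2 := by gcongr
    have e2 : (T ^ (1 / 50 : ℝ)) ^ 2 ≤ T := by
      rw [← Real.rpow_natCast, ← Real.rpow_mul hT0.le]
      calc T ^ (1 / 50 * ((2 : ℕ) : ℝ)) ≤ T ^ (1 : ℝ) := Real.rpow_le_rpow_of_exponent_le hT1 (by norm_num)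
        _ = T := Real.rpow_one T
    linarith
  set q : ℝ := T ^ (-(1 / 3) : ℝ) with hq
  -- logarithms
  have l1 := LL_diff V x hV0 (by linarith)
  have l2 := LL_diff v x hv0 (by linarith)
  have l3 := LL_diff V v hV0 hVv
  have l4 : (x - V) / (2 * V) ≤ q := by
    rw [div_le_iff₀ (by positivity)]
    have : x - V ≤ 2 * (T * q) := by
      rw [← p2]; linarith
    have e : T * q ≤ V * q := by gcongr
    linarith
  have l5 : |LL v - LL V| ≤ q := by
    rw [abs_of_nonneg l3.1]; linarith [l2.1, l1.2]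
  have l6 : |lamv a x - lamv a V| ≤ q := by
    have : lamv a x - lamv a V = LL x - LL V := by unfold lamv; ring
    rw [this, abs_of_nonneg l1.1]; linarith [l1.2]
  have h34 : 0 < 3 / (4 * a) := by positivity
  have l7 : 1 ≤ lamv a x := by
    have := one_le_LL x (by linarith)
    unfold lamv; linarith
  have l8 : 1 ≤ lamv a V := by
    have := one_le_LL V (by linarith)
    unfold lamv; linarith
  have l9 : Real.exp (-lamv a x) ≤ 3 * T ^ (-(1 / 2) : ℝ) := by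
    refine le_trans (Real.exp_le_exp.mpr ?_) (exp_LL_le T x hT0 hTx)
    unfold lamv; linarith
  -- pieces
  have d1 := hD (lamv a x) (lamv a V) x l7 l8 (l6.trans p4)
  have r1 := hR x (by linarith)
  have st := hS v (by linarith)
  have su : u ^ 2 ≤ v := by
    have : u ^ 2 ≤ h ^ 2 := by gcongr
    linarith
  have s1 := st.2 u hu su
  have g0 := st.1
  have g1 : gam (2 + I * ((v + u : ℝ) : ℂ)) ≠ 0 := (hS x (by linarith)).1
  have s2 := PP_shift v u g0 g1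
  have s3 : ‖PP x - PP v * cexp (I * ((u * LL v : ℝ) : ℂ))‖ ≤ 4 * CS * h ^ 2 * q := by
    refine s2.trans ?_
    have e1 : CS * (1 + u ^ 2) / v ≤ CS * (2 * h ^ 2) / T := by
      have : 1 + u ^ 2 ≤ 2 * h ^ 2 := by nlinarith
      gcongr
      linarith
    have e2 : CS * (2 * h ^ 2) / T ≤ CS * (2 * h ^ 2) * q := by
      rw [div_eq_mul_inv]
      gcongr
    linarith
  have s4 : ‖cexp (I * ((u * LL v : ℝ) : ℂ)) - cexp (I * ((u * LL V : ℝ) : ℂ))‖ ≤ h * q := by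
    refine (rot_dist _ _).trans ?_
    rw [← mul_sub, abs_mul, abs_of_nonneg hu]
    gcongr
  set D1 := DD a (lamv a x) x with hD1
  set D0 := DD a (lamv a V) x with hD0
  have n1 : ‖PP v‖ = 1 := PP_norm v g0
  have b1 : ‖D1‖ ≤ CD * (3 * T ^ (-(1 / 2) : ℝ)) := d1.1.trans (by gcongr)
  have b2 : ‖D1 - D0‖ ≤ CD * q * (3 * T ^ (-(1 / 2) : ℝ)) := d1.2.trans (by gcongr)
  have hdec : PP x * (E9 : ℂ) * D1 - PP v * (E9 : ℂ) * (cexp (I * ((u * LL V : ℝ) : ℂ)) * D0) =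
      (E9 : ℂ) * ((PP x - PP v * cexp (I * ((u * LL v : ℝ) : ℂ))) * D1 +
        PP v * (cexp (I * ((u * LL v : ℝ) : ℂ)) - cexp (I * ((u * LL V : ℝ) : ℂ))) * D1 +
        PP v * cexp (I * ((u * LL V : ℝ) : ℂ)) * (D1 - D0)) := by ring
  have hAB : ‖PP x * (E9 : ℂ) * D1 - PP v * (E9 : ℂ) * (cexp (I * ((u * LL V : ℝ) : ℂ)) * D0)‖ ≤
      E9 * (4 * CS * h ^ 2 * q * (CD * (3 * T ^ (-(1 / 2) : ℝ))) + h * q * (CD * (3 * T ^ (-(1 / 2) : ℝ))) +
        CD * q * (3 * T ^ (-(1 / 2) : ℝ))) := by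
    rw [hdec, norm_mul, Complex.norm_real, Real.norm_of_nonneg hE90.le]
    refine mul_le_mul_of_nonneg_left ?_ hE90.le
    refine (norm_add_le _ _).trans (add_le_add ((norm_add_le _ _).trans (add_le_add ?_ ?_)) ?_)
    · rw [norm_mul]
      exact mul_le_mul s3 b1 (norm_nonneg _) (by positivity)
    · rw [norm_mul, norm_mul, n1, one_mul]
      exact mul_le_mul s4 b1 (norm_nonneg _) (by positivity)
    · rw [norm_mul, norm_mul, n1, one_mul, mul_comm I, Complex.norm_exp_ofReal_mul_I, one_mul]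
      exact b2
  have hfin1 : E9 * (4 * CS * h ^ 2 * q * (CD * (3 * T ^ (-(1 / 2) : ℝ))) + h * q * (CD * (3 * T ^ (-(1 / 2) : ℝ))) +
        CD * q * (3 * T ^ (-(1 / 2) : ℝ))) ≤ E9 * CD * 3 * (4 * CS + 2) * h ^ 2 * T ^ (-(5 / 6) : ℝ) := by
    rw [p1]
    have e1 : h ≤ h ^ 2 := by nlinarith
    have e2 : 1 ≤ h ^ 2 := by nlinarith
    have e3 : 0 ≤ E9 * CD * 3 * (T ^ (-(1 / 2) : ℝ) * q) := by positivity
    have e4 : 4 * CS * h ^ 2 + h + 1 ≤ (4 * CS + 2) * h ^ 2 := by linarith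
    calc E9 * (4 * CS * h ^ 2 * q * (CD * (3 * T ^ (-(1 / 2) : ℝ))) + h * q * (CD * (3 * T ^ (-(1 / 2) : ℝ))) +
        CD * q * (3 * T ^ (-(1 / 2) : ℝ))) = E9 * CD * 3 * (T ^ (-(1 / 2) : ℝ) * q) * (4 * CS * h ^ 2 + h + 1) := by ring
      _ ≤ E9 * CD * 3 * (T ^ (-(1 / 2) : ℝ) * q) * ((4 * CS + 2) * h ^ 2) := mul_le_mul_of_nonneg_left e4 e3
      _ = _ := by ring
  have hfin2 : CR / x ≤ CR * h ^ 2 * T ^ (-(5 / 6) : ℝ) := by
    have e2 : 1 ≤ h ^ 2 := by nlinarith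
    calc CR / x ≤ CR / T := by gcongr
      _ = CR * 1 * T⁻¹ := by rw [div_eq_mul_inv, mul_one]
      _ ≤ CR * h ^ 2 * T ^ (-(5 / 6) : ℝ) := by gcongr
  have hr : ‖((RR a x : ℝ) : ℂ) - PP x * (E9 : ℂ) * D1‖ ≤ CR / x := r1
  calc ‖((RR a x : ℝ) : ℂ) - PP v * (E9 : ℂ) * (cexp (I * ((u * LL V : ℝ) : ℂ)) * D0)‖
      = ‖(((RR a x : ℝ) : ℂ) - PP x * (E9 : ℂ) * D1) + (PP x * (E9 : ℂ) * D1 - PP v * (E9 : ℂ) *
        (cexp (I * ((u * LL V : ℝ) : ℂ)) * D0))‖ := by ring_nf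
    _ ≤ CR / x + E9 * CD * 3 * (4 * CS + 2) * h ^ 2 * T ^ (-(5 / 6) : ℝ) :=
        (norm_add_le _ _).trans (add_le_add hr (hAB.trans hfin1))
    _ ≤ (CR + E9 * CD * 3 * (4 * CS + 2)) * h ^ 2 * T ^ (-(5 / 6) : ℝ) := by linarith

end

end Pool.Agent.J4H31.RZ
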