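import Pool.Agent.J4H31.RZ.R3

set_option autoImplicit false

/-!
# Project RZ, piece (R3), end (helper31)
-/

namespace Pool.Agent.J4H31.RZ

open Complex MeasureTheory Filter Topology Set
open Pool.Agent.J4H4.NG Pool.Agent.J4H5.RZ

noncomputable section

/-- the coefficients of the window -/
def cw (a V h : ℝ) (n : ℕ) : ℂ := dd a (lamv a V) n * KK h (LL V - Real.log ((n : ℝ) + 1))

lemma cw_sum (a V h : ℝ) (hh : 0 ≤ h) (hs : Summable fun n : ℕ => amp a (lamv a V) (n + 1)) :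
    Summable fun n => ‖cw a V h n‖ := by
  have h1 := (dd_sum a (lamv a V) hs).mul_right h
  refine Summable.of_nonneg_of_le (fun n => norm_nonneg _) (fun n => ?_) h1
  unfold cw
  rw [norm_mul]
  exact mul_le_mul_of_nonneg_left (KK_le h _ hh) (norm_nonneg _)

/-- the window at one point -/
lemma win (hSUM : S_SUM) (hDIF : S_DIF) (hSTI : S_STI) (hRE : S_RE) (a : ℝ) (ha : 0 < a) : ∃ C VA : ℝ, 0 < C ∧ 81 ≤ VA ∧
    2 * Real.pi * Real.exp 2 ≤ VA ∧
    ∀ T V v h : ℝ, VA ≤ T → T ≤ V → V ≤ v → v ≤ V + T ^ (2 / 3 : ℝ) → 1 ≤ h → h ≤ T ^ (1 / 50 : ℝ) →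
    (∫ u in v..(v + h), RR a u) ^ 2 ≤ C * (‖DS (cw a V h) v‖ ^ 2 + h ^ 6 * T ^ (-(5 / 3) : ℝ)) := by
  obtain ⟨C, VA, hC, hVA, hVA2, hcont, hg, hcmp⟩ := cmp hDIF hSTI hRE a ha
  obtain ⟨_, _, _, _, hS⟩ := hSUM a 1 ha one_pos
  set E9 : ℝ := Real.exp (9 / (16 * a)) with hE9
  have hE90 : 0 < E9 := Real.exp_pos _
  refine ⟨2 * (E9 ^ 2 + C ^ 2), VA, by positivity, hVA, hVA2, ?_⟩
  intro T V v h hT hTV hVv hvV hh1 hhT
  have hT0 : 0 < T := by linarith
  have hT1 : 1 ≤ T := by linarith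
  have hh0 : 0 ≤ h := by linarith
  have hlam : 1 ≤ lamv a V := by
    have := one_le_LL V (by linarith)
    have h34 : 0 < 3 / (4 * a) := by positivity
    unfold lamv; linarith
  have hs := (hS (lamv a V) hlam).1
  have hw := window a (lamv a V) (LL V) v h hh0 hs
  have hDc := DD_cont a (lamv a V) hs
  -- integrals
  have i1 : (((∫ u in v..(v + h), RR a u) : ℝ) : ℂ) = ∫ u in (0 : ℝ)..h, ((RR a (v + u) : ℝ) : ℂ) := by
    rw [← intervalIntegral.integral_ofReal]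
    have := intervalIntegral.integral_comp_add_left (a := 0) (b := h) (fun u : ℝ => ((RR a u : ℝ) : ℂ)) v
    rw [this, add_zero]
  have c1 : IntervalIntegrable (fun u : ℝ => ((RR a (v + u) : ℝ) : ℂ)) volume 0 h := by
    apply ContinuousOn.intervalIntegrable
    rw [Set.uIcc_of_le hh0]
    refine Complex.continuous_ofReal.comp_continuousOn (hcont.comp (by fun_prop) ?_)
    intro u hu
    simp only [Set.mem_Ici]
    linarith [hu.1]
  have c2 : IntervalIntegrable (fun u : ℝ => PP v * (E9 : ℂ) * (cexp (I * ((u * LL V : ℝ) : ℂ)) * DD a (lamv a V) (v + u)))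
      volume 0 h := by
    apply Continuous.intervalIntegrable
    have e1 : Continuous fun u : ℝ => DD a (lamv a V) (v + u) := hDc.comp (by fun_prop)
    have e2 : Continuous fun u : ℝ => cexp (I * ((u * LL V : ℝ) : ℂ)) := by fun_prop
    exact continuous_const.mul (e2.mul e1)
  have i2 : ∫ u in (0 : ℝ)..h, PP v * (E9 : ℂ) * (cexp (I * ((u * LL V : ℝ) : ℂ)) * DD a (lamv a V) (v + u)) =
      PP v * (E9 : ℂ) * DS (cw a V h) v := by
    rw [intervalIntegral.integral_const_mul, hw]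
    rfl
  have i3 : ‖(((∫ u in v..(v + h), RR a u) : ℝ) : ℂ) - PP v * (E9 : ℂ) * DS (cw a V h) v‖ ≤
      C * h ^ 2 * T ^ (-(5 / 6) : ℝ) * |h - 0| := by
    rw [i1, ← i2, ← intervalIntegral.integral_sub c1 c2]
    apply intervalIntegral.norm_integral_le_of_norm_le_const
    intro u hu
    rw [Set.uIoc_of_le hh0] at hu
    exact hcmp T V v u h hT hTV hVv hvV hu.1.le hu.2 hh1 hhT
  rw [sub_zero, abs_of_nonneg hh0] at i3
  have n1 : ‖PP v * (E9 : ℂ) * DS (cw a V h) v‖ = E9 * ‖DS (cw a V h) v‖ := by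
    rw [norm_mul, norm_mul, PP_norm v (hg v (by linarith)), one_mul, Complex.norm_real, Real.norm_of_nonneg hE90.le]
  have n2 : |∫ u in v..(v + h), RR a u| ≤ E9 * ‖DS (cw a V h) v‖ + C * h ^ 2 * T ^ (-(5 / 6) : ℝ) * h := by
    have e1 : |∫ u in v..(v + h), RR a u| = ‖(((∫ u in v..(v + h), RR a u) : ℝ) : ℂ)‖ := by
      rw [Complex.norm_real, Real.norm_eq_abs]
    rw [e1, ← n1]
    have := norm_add_le ((((∫ u in v..(v + h), RR a u) : ℝ) : ℂ) - PP v * (E9 : ℂ) * DS (cw a V h) v)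
      (PP v * (E9 : ℂ) * DS (cw a V h) v)
    rw [sub_add_cancel] at this
    linarith
  have n3 : (T ^ (-(5 / 6) : ℝ)) ^ 2 = T ^ (-(5 / 3) : ℝ) := by
    rw [← Real.rpow_natCast, ← Real.rpow_mul hT0.le]
    norm_num
  have n4 : 0 ≤ E9 * ‖DS (cw a V h) v‖ + C * h ^ 2 * T ^ (-(5 / 6) : ℝ) * h := by
    have := Real.rpow_pos_of_pos hT0 (-(5 / 6))
    positivity
  rw [← sq_abs]
  set X := ‖DS (cw a V h) v‖
  set Y := T ^ (-(5 / 6) : ℝ)
  have n5 : |∫ u in v..(v + h), RR a u| ^ 2 ≤ (E9 * X + C * h ^ 2 * Y * h) ^ 2 := by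
    gcongr
  rw [← n3]
  refine n5.trans ?_
  have e1 : (E9 * X + C * h ^ 2 * Y * h) ^ 2 ≤ 2 * (E9 ^ 2 * X ^ 2) + 2 * (C ^ 2 * (h ^ 6 * Y ^ 2)) := by
    nlinarith [sq_nonneg (E9 * X - C * h ^ 2 * Y * h)]
  have e2 : 0 ≤ C ^ 2 * X ^ 2 := by positivity
  have e3 : 0 ≤ E9 ^ 2 * (h ^ 6 * Y ^ 2) := by positivity
  linarith

/-- one short interval -/
lemma loc (hSUM : S_SUM) (hMSQ : S_MSQ) (hDIF : S_DIF) (hSTI : S_STI) (hRE : S_RE) (a : ℝ) (ha : 0 < a) :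
    ∃ C VA : ℝ, 0 < C ∧ 81 ≤ VA ∧ ∀ T V H h : ℝ, VA ≤ T → T ≤ V → V ≤ 2 * T → H ≤ T ^ (2 / 3 : ℝ) →
    T ^ (2 / 3 : ℝ) ≤ 2 * H → 1 ≤ h → h ≤ T ^ (1 / 50 : ℝ) →
    IntervalIntegrable (fun v => (∫ u in v..(v + h), RR a u) ^ 2) volume V (V + H) →
    ∫ v in V..(V + H), (∫ u in v..(v + h), RR a u) ^ 2 ≤ C * h * H * T ^ (-(3 / 2) : ℝ) := by
  obtain ⟨C, VA, hC, hVA, hVA2, hwin⟩ := win hSUM hDIF hSTI hRE a ha
  obtain ⟨C', hC', hmain⟩ := mainW hSUM hMSQ a ha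
  obtain ⟨_, _, _, _, hS⟩ := hSUM a 1 ha one_pos
  have h34 : 0 < 3 / (4 * a) := by positivity
  set K : ℝ := 51 + 3 / (4 * a) with hK
  have hK0 : 0 < K := by positivity
  refine ⟨C * (C' * (27 + 18 * K) + 1), VA, by positivity, hVA, ?_⟩
  intro T V H h hT hTV hVT hHT hTH hh1 hhT hint
  have hT0 : 0 < T := by linarith
  have hT1 : 1 ≤ T := by linarith
  have hh0 : 0 ≤ h := by linarith
  have hV0 : 0 < V := by linarith
  have pT : 0 < T ^ (2 / 3 : ℝ) := Real.rpow_pos_of_pos hT0 _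
  have hH0 : 0 < H := by linarith
  have hLL1 := one_le_LL V (by linarith)
  have hlam : 1 ≤ lamv a V := by unfold lamv; linarith
  have hs := (hS (lamv a V) hlam).1
  have hcs := cw_sum a V h hh0 hs
  have hDc := DS_cont (cw a V h) hcs
  -- mean square of the main term
  have hhe : h ≤ Real.exp (lamv a V) := by
    have e1 : Real.exp (LL V) ≤ Real.exp (lamv a V) := Real.exp_le_exp.mpr (by unfold lamv; linarith)
    have e2 : T ^ (1 / 2 : ℝ) ≤ 3 * Real.exp (LL V) := by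
      have := exp_LL_le T V hT0 hTV
      rw [Real.exp_neg, Real.rpow_neg hT0.le, inv_le_iff_one_le_mul₀ (Real.exp_pos _)] at this
      have hp : 0 < T ^ (1 / 2 : ℝ) := Real.rpow_pos_of_pos hT0 _
      have e : 3 * (T ^ (1 / 2 : ℝ))⁻¹ * Real.exp (LL V) = (3 * Real.exp (LL V)) / T ^ (1 / 2 : ℝ) := by
        rw [div_eq_mul_inv]; ring
      rw [e, le_div_iff₀ hp, one_mul] at this
      exact this
    have e3 : 3 * T ^ (1 / 50 : ℝ) ≤ T ^ (1 / 2 : ℝ) := by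
      have f1 : (3 : ℝ) ≤ T ^ (1 / 4 : ℝ) := by
        have f2 : (81 : ℝ) ^ (1 / 4 : ℝ) = 3 := by
          rw [show (81 : ℝ) = 3 ^ (4 : ℝ) by norm_num, ← Real.rpow_mul (by norm_num)]
          norm_num
        rw [← f2]
        exact Real.rpow_le_rpow (by norm_num) (by linarith) (by norm_num)
      have f3 : T ^ (1 / 50 : ℝ) ≤ T ^ (1 / 4 : ℝ) := Real.rpow_le_rpow_of_exponent_le hT1 (by norm_num)
      have f4 : T ^ (1 / 2 : ℝ) = T ^ (1 / 4 : ℝ) * T ^ (1 / 4 : ℝ) := by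
        rw [← Real.rpow_add hT0]; norm_num
      rw [f4]
      have f5 : 0 < T ^ (1 / 50 : ℝ) := Real.rpow_pos_of_pos hT0 _
      nlinarith
    linarith
  have hm := hmain (LL V) (lamv a V) h V H hlam (by
    have : LL V - lamv a V = -(3 / (4 * a)) := by unfold lamv; ring
    rw [this, abs_neg, abs_of_pos h34]) hh1 hhe hH0.le
  -- exponentials
  have x1 : Real.exp (-lamv a V) ≤ 3 * T ^ (-(1 / 2) : ℝ) := by
    refine le_trans (Real.exp_le_exp.mpr ?_) (exp_LL_le T V hT0 hTV)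
    unfold lamv; linarith
  set y : ℝ := T ^ (-(1 / 2) : ℝ) with hy
  have hy0 : 0 < y := Real.rpow_pos_of_pos hT0 _
  have y2 : y ^ 2 = T⁻¹ := by
    rw [hy, ← Real.rpow_natCast, ← Real.rpow_mul hT0.le, ← Real.rpow_neg_one]
    norm_num
  have y3 : y ^ 3 = T ^ (-(3 / 2) : ℝ) := by
    rw [hy, ← Real.rpow_natCast, ← Real.rpow_mul hT0.le]
    norm_num
  have x3 : Real.exp (-(3 * lamv a V)) ≤ 27 * T ^ (-(3 / 2) : ℝ) := by
    have e : Real.exp (-(3 * lamv a V)) = (Real.exp (-lamv a V)) ^ 3 := by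
      rw [← Real.exp_nat_mul]; congr 1; push_cast; ring
    rw [e, ← y3]
    calc (Real.exp (-lamv a V)) ^ 3 ≤ (3 * y) ^ 3 := by gcongr
      _ = 27 * y ^ 3 := by ring
  have x2 : Real.exp (-(2 * lamv a V)) ≤ 9 * T⁻¹ := by
    have e : Real.exp (-(2 * lamv a V)) = (Real.exp (-lamv a V)) ^ 2 := by
      rw [← Real.exp_nat_mul]; congr 1; push_cast; ring
    rw [e, ← y2]
    calc (Real.exp (-lamv a V)) ^ 2 ≤ (3 * y) ^ 2 := by gcongr
      _ = 9 * y ^ 2 := by ring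
  set w : ℝ := T ^ (1 / 50 : ℝ) with hw
  have hw1 : 1 ≤ w := Real.one_le_rpow hT1 (by norm_num)
  have xl : 1 + lamv a V ≤ K * w := by
    have e1 : Real.log T ≤ T ^ (1 / 50 : ℝ) / (1 / 50) := Real.log_le_rpow_div hT0.le (by norm_num)
    have e2 : LL V ≤ Real.log T := by
      unfold LL
      have hp := Real.pi_gt_three
      have f1 : V / (2 * Real.pi) ≤ T := by
        rw [div_le_iff₀ (by positivity)]
        nlinarith
      have f2 : Real.log (V / (2 * Real.pi)) ≤ Real.log T := Real.log_le_log (by positivity) f1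
      have f3 : 0 ≤ Real.log T := Real.log_nonneg hT1
      linarith
    have e3 : Real.log T ≤ 50 * w := by
      rw [hw]; linarith
    have e4 : 1 + lamv a V ≤ 1 + 50 * w + 3 / (4 * a) := by
      unfold lamv; linarith
    have e5 : (1 + 3 / (4 * a)) * 1 ≤ (1 + 3 / (4 * a)) * w := by gcongr
    rw [hK]; linarith
  -- powers
  have w2 : w ^ 2 * T⁻¹ ≤ 2 * H * T ^ (-(3 / 2) : ℝ) := by
    have e1 : w ^ 2 * T⁻¹ = T ^ (-(24 / 25) : ℝ) := by
      rw [hw, ← Real.rpow_natCast, ← Real.rpow_mul hT0.le, ← Real.rpow_neg_one, ← Real.rpow_add hT0]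
      norm_num
    have e2 : T ^ (2 / 3 : ℝ) * T ^ (-(3 / 2) : ℝ) = T ^ (-(5 / 6) : ℝ) := by
      rw [← Real.rpow_add hT0]; norm_num
    have e3 : T ^ (-(24 / 25) : ℝ) ≤ T ^ (-(5 / 6) : ℝ) := Real.rpow_le_rpow_of_exponent_le hT1 (by norm_num)
    rw [e1]
    refine e3.trans ?_
    rw [← e2]
    exact mul_le_mul_of_nonneg_right hTH (Real.rpow_nonneg hT0.le _)
  have w6 : h ^ 6 * T ^ (-(5 / 3) : ℝ) ≤ h * T ^ (-(3 / 2) : ℝ) := by
    have e1 : h ^ 5 ≤ w ^ 5 := by gcongr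
    have e2 : w ^ 5 = T ^ (1 / 10 : ℝ) := by
      rw [hw, ← Real.rpow_natCast, ← Real.rpow_mul hT0.le]; norm_num
    have e3 : T ^ (1 / 10 : ℝ) * T ^ (-(5 / 3) : ℝ) ≤ T ^ (-(3 / 2) : ℝ) := by
      rw [← Real.rpow_add hT0]
      exact Real.rpow_le_rpow_of_exponent_le hT1 (by norm_num)
    have e4 : 0 < T ^ (-(5 / 3) : ℝ) := Real.rpow_pos_of_pos hT0 _
    calc h ^ 6 * T ^ (-(5 / 3) : ℝ) = h * (h ^ 5 * T ^ (-(5 / 3) : ℝ)) := by ring
      _ ≤ h * (T ^ (1 / 10 : ℝ) * T ^ (-(5 / 3) : ℝ)) := by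
        rw [← e2]; gcongr
      _ ≤ h * T ^ (-(3 / 2) : ℝ) := by gcongr
  -- comparison
  have t32 : 0 < T ^ (-(3 / 2) : ℝ) := Real.rpow_pos_of_pos hT0 _
  have hle : ∫ v in V..(V + H), (∫ u in v..(v + h), RR a u) ^ 2 ≤
      ∫ v in V..(V + H), C * (‖DS (cw a V h) v‖ ^ 2 + h ^ 6 * T ^ (-(5 / 3) : ℝ)) := by
    apply intervalIntegral.integral_mono_on (by linarith) hint
    · apply Continuous.intervalIntegrable
      exact continuous_const.mul ((hDc.norm.pow 2).add continuous_const)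
    · intro v hv
      exact hwin T V v h hT hTV hv.1 (by linarith [hv.2]) hh1 hhT
  have heq : ∫ v in V..(V + H), C * (‖DS (cw a V h) v‖ ^ 2 + h ^ 6 * T ^ (-(5 / 3) : ℝ)) =
      C * ((∫ v in V..(V + H), ‖DS (cw a V h) v‖ ^ 2) + H * (h ^ 6 * T ^ (-(5 / 3) : ℝ))) := by
    have q1 : IntervalIntegrable (fun v => ‖DS (cw a V h) v‖ ^ 2) volume V (V + H) :=
      (hDc.norm.pow 2).intervalIntegrable _ _
    have q2 : IntervalIntegrable (fun _ : ℝ => h ^ 6 * T ^ (-(5 / 3) : ℝ)) volume V (V + H) :=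
      continuous_const.intervalIntegrable _ _
    rw [intervalIntegral.integral_const_mul, intervalIntegral.integral_add q1 q2, intervalIntegral.integral_const,
      smul_eq_mul, add_sub_cancel_left]
  rw [heq] at hle
  refine hle.trans ?_
  have hm' : ∫ v in V..(V + H), ‖DS (cw a V h) v‖ ^ 2 ≤
      C' * (H * h * (27 * T ^ (-(3 / 2) : ℝ)) + h * (K * (2 * H * T ^ (-(3 / 2) : ℝ)) * 9)) := by
    refine hm.trans ?_
    refine mul_le_mul_of_nonneg_left ?_ hC'.le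
    refine add_le_add (by gcongr) ?_
    calc h ^ 2 * (1 + lamv a V) * Real.exp (-(2 * lamv a V))
        ≤ h ^ 2 * (K * w) * (9 * T⁻¹) := by gcongr
      _ = h * (h * (K * w) * (9 * T⁻¹)) := by ring
      _ ≤ h * (w * (K * w) * (9 * T⁻¹)) := by gcongr
      _ = h * (K * (w ^ 2 * T⁻¹) * 9) := by ring
      _ ≤ h * (K * (2 * H * T ^ (-(3 / 2) : ℝ)) * 9) := by gcongr
  calc C * ((∫ v in V..(V + H), ‖DS (cw a V h) v‖ ^ 2) + H * (h ^ 6 * T ^ (-(5 / 3) : ℝ)))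
      ≤ C * (C' * (H * h * (27 * T ^ (-(3 / 2) : ℝ)) + h * (K * (2 * H * T ^ (-(3 / 2) : ℝ)) * 9)) +
        H * (h * T ^ (-(3 / 2) : ℝ))) := by gcongr
    _ = C * (C' * (27 + 18 * K) + 1) * h * H * T ^ (-(3 / 2) : ℝ) := by ring

/-- (R3) -/
theorem t_R3 : S_R3' := by
  intro hSUM hMSQ hDIF hSTI hRE a ha
  obtain ⟨C, VA, hC, hVA, hloc⟩ := loc hSUM hMSQ hDIF hSTI hRE a ha
  refine ⟨C, VA, hC, by linarith, ?_⟩
  intro T h hT hh1 hhT
  have hT0 : 0 < T := by linarith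
  have hT1 : 1 ≤ T := by linarith
  have hpos : 0 ≤ C * h * T ^ (-(1 / 2) : ℝ) := by
    have := Real.rpow_pos_of_pos hT0 (-(1 / 2))
    positivity
  by_cases hint : IntervalIntegrable (fun v => (∫ u in v..(v + h), RR a u) ^ 2) volume T (2 * T)
  swap
  · rw [intervalIntegral.integral_undef hint]
    exact hpos
  set f : ℝ → ℝ := fun v => (∫ u in v..(v + h), RR a u) ^ 2 with hf
  set N : ℕ := ⌈T ^ (1 / 3 : ℝ)⌉₊ with hN
  have t13 : 1 ≤ T ^ (1 / 3 : ℝ) := Real.one_le_rpow hT1 (by norm_num)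
  have N1 : T ^ (1 / 3 : ℝ) ≤ N := Nat.le_ceil _
  have N2 : (N : ℝ) ≤ 2 * T ^ (1 / 3 : ℝ) := by
    have := (Nat.ceil_lt_add_one (by linarith : (0 : ℝ) ≤ T ^ (1 / 3 : ℝ))).le
    rw [← hN] at this
    linarith
  have N0 : (0 : ℝ) < N := by linarith
  set H : ℝ := T / N with hH
  have e23 : T ^ (2 / 3 : ℝ) * T ^ (1 / 3 : ℝ) = T := by
    rw [← Real.rpow_add hT0]; norm_num
  have p23 : 0 < T ^ (2 / 3 : ℝ) := Real.rpow_pos_of_pos hT0 _
  have H1 : H ≤ T ^ (2 / 3 : ℝ) := by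
    rw [hH, div_le_iff₀ N0]
    nlinarith
  have H2 : T ^ (2 / 3 : ℝ) ≤ 2 * H := by
    rw [hH, ← mul_div_assoc, le_div_iff₀ N0]
    nlinarith
  have H0 : 0 < H := by linarith
  have HN : (N : ℝ) * H = T := by rw [hH]; field_simp
  have hI : ∀ i : ℕ, i < N → IntervalIntegrable f volume (T + (i : ℝ) * H) (T + ((i + 1 : ℕ) : ℝ) * H) := by
    intro i hi
    have hi' : ((i + 1 : ℕ) : ℝ) ≤ N := by exact_mod_cast hi
    refine hint.mono_set ?_
    rw [Set.uIcc_of_le (by push_cast; linarith), Set.uIcc_of_le (by linarith)]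
    apply Set.Icc_subset_Icc
    · have : 0 ≤ (i : ℝ) * H := by positivity
      linarith
    · have : ((i + 1 : ℕ) : ℝ) * H ≤ N * H := by gcongr
      linarith
  have hsum := intervalIntegral.sum_integral_adjacent_intervals (μ := volume) (f := f) (n := N)
    (a := fun i : ℕ => T + (i : ℝ) * H) hI
  have hTT : T + (N : ℝ) * H = 2 * T := by rw [HN]; ring
  simp only [Nat.cast_zero, zero_mul, add_zero, hTT] at hsum
  rw [← hsum]
  have hterm : ∀ i ∈ Finset.range N, ∫ v in (T + (i : ℝ) * H)..(T + ((i + 1 : ℕ) : ℝ) * H), f v ≤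
      C * h * H * T ^ (-(3 / 2) : ℝ) := by
    intro i hi
    have hi1 := Finset.mem_range.mp hi
    have hi' : (i : ℝ) ≤ N := by exact_mod_cast hi1.le
    have hend : T + ((i + 1 : ℕ) : ℝ) * H = (T + (i : ℝ) * H) + H := by push_cast; ring
    have hII := hI i hi1
    rw [hend] at hII ⊢
    have : 0 ≤ (i : ℝ) * H := by positivity
    have h2 : (i : ℝ) * H ≤ N * H := by gcongr
    exact hloc T (T + (i : ℝ) * H) H h hT (by linarith) (by linarith) H1 H2 hh1 hhT hII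
  refine (Finset.sum_le_sum hterm).trans ?_
  rw [Finset.sum_const, Finset.card_range, nsmul_eq_mul]
  have e1 : (N : ℝ) * (C * h * H * T ^ (-(3 / 2) : ℝ)) = C * h * (T * T ^ (-(3 / 2) : ℝ)) := by
    calc (N : ℝ) * (C * h * H * T ^ (-(3 / 2) : ℝ)) = C * h * ((N * H) * T ^ (-(3 / 2) : ℝ)) := by ring
      _ = _ := by rw [HN]
  have e2 : T * T ^ (-(3 / 2) : ℝ) = T ^ (-(1 / 2) : ℝ) := by
    nth_rewrite 1 [← Real.rpow_one T]
    rw [← Real.rpow_add hT0]; norm_num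
  rw [e1, e2]

end

end Pool.Agent.J4H31.RZ
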